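import Pool.Agent.H98.SLN.Targets

/-!
# Renewal identity for a general kernel (row RID of sln_modules)
-/

set_option autoImplicit false

open Pool.Agent.H95 Pool.Agent.H95.Cop
open Pool.Agent.H98.SLN

namespace Pool.Agent.H13.SLN

theorem pf_RID : T_RID := by
  intro k hk0 m
  have hsucc : ∀ n, (1 - ∑ i ∈ Finset.range (n + 1), k i) =
      (1 - ∑ i ∈ Finset.range n, k i) - k n := by
    intro n
    rw [Finset.sum_range_succ]
    ring
  have hone : (1 - ∑ i ∈ Finset.range 1, k i) = 1 := by
    rw [Finset.sum_range_one, hk0, sub_zero]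
  induction m with
  | zero =>
    rw [zero_add, Finset.sum_range_one, Nat.sub_zero, hone, uu_zero, mul_one]
  | succ m ih =>
    rw [Finset.sum_range_succ]
    have h1 : ∀ n ∈ Finset.range (m + 1),
        uu k n * (1 - ∑ i ∈ Finset.range (m + 1 + 1 - n), k i) =
        uu k n * (1 - ∑ i ∈ Finset.range (m + 1 - n), k i) - uu k n * k (m + 1 - n) := by
      intro n hn
      rw [Finset.mem_range] at hn
      have : m + 1 + 1 - n = (m + 1 - n) + 1 := by omega
      rw [this, hsucc]
      ring
    rw [Finset.sum_congr rfl h1, Finset.sum_sub_distrib, ih]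
    have h2 : m + 1 + 1 - (m + 1) = 1 := by omega
    rw [h2, hone, mul_one, uu_succ]
    have h3 : ∑ n ∈ Finset.range (m + 1), uu k n * k (m + 1 - n) =
        ∑ j ∈ Finset.range (m + 1), k (j + 1) * uu k (m - j) := by
      rw [← Finset.sum_range_reflect]
      refine Finset.sum_congr rfl fun j hj => ?_
      rw [Finset.mem_range] at hj
      have e1 : m + 1 - 1 - j = m - j := by omega
      have e2 : m + 1 - (m + 1 - 1 - j) = j + 1 := by omega
      rw [e2, e1]
      ring
    rw [h3]
    ring

end Pool.Agent.H13.SLN
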